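import Pool.Agent.Helper7.KS2.Defs

set_option autoImplicit false
open Classical

namespace Pool.Agent.Helper7.KS2

open Pool.Agent.Helper41.Girth4 (Pr)

section

variable {I L : Type} [Fintype I] [Fintype L] [Nonempty L]

theorem sum_upd (a : I) (f : (I → L) → ℝ) :
    ∑ φ : I → L, ∑ j : L, f (Function.update φ a j) = Fintype.card L * ∑ φ, f φ := by
  have h1 : ∑ φ : I → L, ∑ j : L, f (Function.update φ a j)
      = ∑ x : (I → L) × L, f (Function.update x.1 a x.2) := by
    rw [Fintype.sum_prod_type]
  have h2 : ∑ x : (I → L) × L, f (Function.update x.1 a x.2)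
      = ∑ x : (I → L) × L, f x.1 := by
    refine Finset.sum_bij' (fun x _ => (Function.update x.1 a x.2, x.1 a))
      (fun x _ => (Function.update x.1 a x.2, x.1 a)) ?_ ?_ ?_ ?_ ?_
    · intro x _; simp
    · intro x _; simp
    · rintro ⟨φ, j⟩ _
      simp
    · rintro ⟨φ, j⟩ _
      simp
    · rintro ⟨φ, j⟩ _
      rfl
  rw [h1, h2, Fintype.sum_prod_type]
  simp [Finset.mul_sum]

theorem const_of_upd (f : (I → L) → ℝ) (h : ∀ ω i l, f (Function.update ω i l) = f ω)
    (ω ω' : I → L) : f ω' = f ω := by
  have key : ∀ T : Finset I, f (fun i => if i ∈ T then ω' i else ω i) = f ω := by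
    intro T
    induction T using Finset.induction_on with
    | empty => simp
    | insert a T ha ih =>
      rw [← ih, ← h (fun i => if i ∈ T then ω' i else ω i) a (ω' a)]
      congr 1
      funext i
      by_cases hi : i = a
      · subst hi; simp
      · simp [Function.update_of_ne hi, hi]
  have := key Finset.univ
  simpa using this

omit [Nonempty L] in
theorem hoeff (X : L → ℝ) (b lam : ℝ) (hb : 0 < b) (h0 : ∑ l, X l = 0) (h1 : ∀ l, |X l| ≤ b) :
    ∑ l, Real.exp (lam * X l) ≤ Fintype.card L * Real.exp (lam ^ 2 * b ^ 2 / 2) := by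
  have h2 : ∀ l, Real.exp (lam * X l) ≤ (b + X l) / (2 * b) * Real.exp (lam * b)
      + (b - X l) / (2 * b) * Real.exp (-(lam * b)) := by
    intro l
    have hX := abs_le.mp (h1 l)
    have hc := convexOn_exp.2
    have hconv := hc (Set.mem_univ (lam * b)) (Set.mem_univ (-(lam * b)))
      (show (0 : ℝ) ≤ (b + X l) / (2 * b) from div_nonneg (by linarith [hX.1]) (by linarith))
      (show (0 : ℝ) ≤ (b - X l) / (2 * b) from div_nonneg (by linarith [hX.2]) (by linarith))
      (by field_simp; ring)
    simp only [smul_eq_mul] at hconv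
    refine le_trans (le_of_eq ?_) hconv
    congr 1
    field_simp
    ring
  have h3 : ∑ l, ((b + X l) / (2 * b) * Real.exp (lam * b)
      + (b - X l) / (2 * b) * Real.exp (-(lam * b))) = Fintype.card L * Real.cosh (lam * b) := by
    rw [Finset.sum_add_distrib, ← Finset.sum_mul, ← Finset.sum_mul, ← Finset.sum_div,
      ← Finset.sum_div, Finset.sum_add_distrib, Finset.sum_sub_distrib, h0]
    simp only [Finset.sum_const, nsmul_eq_mul, Finset.card_univ]
    rw [Real.cosh_eq]
    field_simp
    ring
  refine (Finset.sum_le_sum fun l _ => h2 l).trans ?_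
  rw [h3]
  refine mul_le_mul_of_nonneg_left ?_ (Nat.cast_nonneg _)
  refine (Real.cosh_le_exp_half_sq _).trans (le_of_eq ?_)
  congr 1
  ring

theorem mgf (b lam : ℝ) (hb : 0 < b) (S : Finset I) :
    ∀ f : (I → L) → ℝ,
    (∀ ω i l, |f (Function.update ω i l) - f ω| ≤ if i ∈ S then b else 0) →
    ∑ ω, Real.exp (lam * ((∑ ω, f ω) / (Fintype.card (I → L) : ℝ) - f ω))
      ≤ (Fintype.card (I → L) : ℝ) * Real.exp (lam ^ 2 * b ^ 2 * S.card / 2) := by
  have hcard : (0 : ℝ) < (Fintype.card (I → L) : ℝ) := by
    exact_mod_cast Fintype.card_pos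
  have hL : (0 : ℝ) < (Fintype.card L : ℝ) := by exact_mod_cast Fintype.card_pos
  induction S using Finset.induction_on with
  | empty =>
    intro f hf
    have hc : ∀ ω ω', f ω' = f ω := by
      intro ω ω'
      apply const_of_upd
      intro ω i l
      have := hf ω i l
      simp only [Finset.notMem_empty, if_false] at this
      have h0 := abs_nonpos_iff.mp this
      linarith
    have h1 : ∀ ω, (∑ ω, f ω) / (Fintype.card (I → L) : ℝ) - f ω = 0 := by
      intro ω
      have : ∑ ω', f ω' = (Fintype.card (I → L) : ℝ) * f ω := by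
        rw [Finset.sum_congr rfl (fun ω' _ => hc ω ω'), Finset.sum_const, nsmul_eq_mul,
          Finset.card_univ]
      rw [this]
      field_simp
      ring
    simp only [h1, mul_zero, Real.exp_zero, Finset.card_empty, Nat.cast_zero, zero_div, mul_one,
      Finset.sum_const, Finset.card_univ, nsmul_eq_mul]
    exact le_refl _
  | insert i S hi ih =>
    intro f hf
    let g : (I → L) → ℝ := fun ω => (∑ l, f (Function.update ω i l)) / (Fintype.card L : ℝ)
    have hμ : (∑ ω, g ω) = ∑ ω, f ω := by
      simp only [g]
      rw [← Finset.sum_div, sum_upd]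
      field_simp
    have hg : ∀ ω j l, |g (Function.update ω j l) - g ω| ≤ if j ∈ S then b else 0 := by
      intro ω j l
      by_cases hji : j = i
      · subst hji
        rw [if_neg hi]
        simp [g]
      · have h1 : g (Function.update ω j l) - g ω
            = (∑ l', (f (Function.update (Function.update ω i l') j l)
                - f (Function.update ω i l'))) / (Fintype.card L : ℝ) := by
          simp only [g]
          rw [Finset.sum_sub_distrib, sub_div]
          congr 2
          refine Finset.sum_congr rfl fun l' _ => ?_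
          rw [Function.update_comm hji]
        rw [h1, abs_div, abs_of_pos hL, div_le_iff₀ hL]
        refine (Finset.abs_sum_le_sum_abs _ _).trans ?_
        have h2 : ∀ l' ∈ (Finset.univ : Finset L),
            |f (Function.update (Function.update ω i l') j l) - f (Function.update ω i l')|
              ≤ if j ∈ S then b else 0 := by
          intro l' _
          have := hf (Function.update ω i l') j l
          simpa [Finset.mem_insert, hji] using this
        refine (Finset.sum_le_sum h2).trans (le_of_eq ?_)
        rw [Finset.sum_const, nsmul_eq_mul, Finset.card_univ, mul_comm]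
    have hih := ih g hg
    rw [hμ] at hih
    set μ := (∑ ω, f ω) / (Fintype.card (I → L) : ℝ) with hμdef
    have h1 : ∑ ω, Real.exp (lam * (μ - f ω))
        = (∑ ω, ∑ l, Real.exp (lam * (μ - f (Function.update ω i l)))) / (Fintype.card L : ℝ) := by
      rw [sum_upd i (fun ω => Real.exp (lam * (μ - f ω)))]
      field_simp
    have h2 : ∀ ω, ∑ l, Real.exp (lam * (μ - f (Function.update ω i l)))
        ≤ Real.exp (lam * (μ - g ω)) * (Fintype.card L * Real.exp (lam ^ 2 * b ^ 2 / 2)) := by
      intro ω
      have h3 : ∀ l, Real.exp (lam * (μ - f (Function.update ω i l)))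
          = Real.exp (lam * (μ - g ω)) * Real.exp (lam * (g ω - f (Function.update ω i l))) := by
        intro l
        rw [← Real.exp_add]
        congr 1
        ring
      simp only [h3]
      rw [← Finset.mul_sum]
      refine mul_le_mul_of_nonneg_left ?_ (Real.exp_pos _).le
      apply hoeff _ b lam hb
      · rw [Finset.sum_sub_distrib, Finset.sum_const, nsmul_eq_mul, Finset.card_univ]
        simp only [g]
        field_simp
        ring
      · intro l
        have h4 : g ω - f (Function.update ω i l)
            = (∑ l', (f (Function.update (Function.update ω i l) i l')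
                - f (Function.update ω i l))) / (Fintype.card L : ℝ) := by
          simp only [g]
          rw [Finset.sum_sub_distrib, Finset.sum_const, nsmul_eq_mul, Finset.card_univ, sub_div]
          rw [mul_div_cancel_left₀ _ hL.ne']
          congr 2
          refine Finset.sum_congr rfl fun l' _ => ?_
          rw [Function.update_idem]
        rw [h4, abs_div, abs_of_pos hL, div_le_iff₀ hL]
        refine (Finset.abs_sum_le_sum_abs _ _).trans ?_
        have h5 : ∀ l' ∈ (Finset.univ : Finset L),
            |f (Function.update (Function.update ω i l) i l') - f (Function.update ω i l)|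
              ≤ b := by
          intro l' _
          have := hf (Function.update ω i l) i l'
          simpa using this
        refine (Finset.sum_le_sum h5).trans (le_of_eq ?_)
        rw [Finset.sum_const, nsmul_eq_mul, Finset.card_univ, mul_comm]
    rw [h1, div_le_iff₀ hL]
    refine (Finset.sum_le_sum fun ω _ => h2 ω).trans ?_
    rw [← Finset.sum_mul]
    refine (mul_le_mul_of_nonneg_right hih (by positivity)).trans (le_of_eq ?_)
    rw [Finset.card_insert_of_notMem hi]
    push_cast
    have : lam ^ 2 * b ^ 2 * ((S.card : ℝ) + 1) / 2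
        = lam ^ 2 * b ^ 2 * S.card / 2 + lam ^ 2 * b ^ 2 / 2 := by ring
    rw [this, Real.exp_add]
    ring

end

theorem stmtMcD : StmtMcD := by
  intro I L _ _ _ S f b n hb hn hS hf t ht
  have hnr : (0 : ℝ) < n := by exact_mod_cast hn
  have hcard : (0 : ℝ) < (Fintype.card (I → L) : ℝ) := by
    exact_mod_cast Fintype.card_pos
  set μ := (∑ ω, f ω) / (Fintype.card (I → L) : ℝ) with hμ
  set lam : ℝ := t / (b ^ 2 * n) with hlam
  have hlam0 : 0 ≤ lam := by positivity
  have h1 := mgf (I := I) (L := L) b lam hb S f hf
  rw [← hμ] at h1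
  have h2 : (Fintype.card (I → L) : ℝ) * Real.exp (lam ^ 2 * b ^ 2 * S.card / 2)
      ≤ (Fintype.card (I → L) : ℝ) * Real.exp (lam ^ 2 * b ^ 2 * n / 2) := by
    refine mul_le_mul_of_nonneg_left ?_ hcard.le
    apply Real.exp_le_exp.mpr
    have : (S.card : ℝ) ≤ n := by exact_mod_cast hS
    have h3 : lam ^ 2 * b ^ 2 * S.card ≤ lam ^ 2 * b ^ 2 * n :=
      mul_le_mul_of_nonneg_left this (by positivity)
    linarith
  rw [Pool.Agent.Helper41.Girth4.Pr_eq_card, div_le_iff₀ hcard]
  have h3 : ((Finset.univ.filter (fun ω => f ω ≤ μ - t)).card : ℝ) * Real.exp (lam * t)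
      ≤ ∑ ω, Real.exp (lam * (μ - f ω)) := by
    rw [← nsmul_eq_mul, ← Finset.sum_const]
    refine (Finset.sum_le_sum fun ω hω => ?_).trans
      (Finset.sum_le_sum_of_subset_of_nonneg (Finset.filter_subset _ _)
        (fun ω _ _ => (Real.exp_pos _).le))
    apply Real.exp_le_exp.mpr
    have := (Finset.mem_filter.mp hω).2
    apply mul_le_mul_of_nonneg_left _ hlam0
    linarith
  have h4 := h3.trans (h1.trans h2)
  have h5 : Real.exp (-(t ^ 2 / (2 * b ^ 2 * n))) * Real.exp (lam * t)
      = Real.exp (lam ^ 2 * b ^ 2 * n / 2) := by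
    rw [← Real.exp_add]
    congr 1
    rw [hlam]
    field_simp
    ring
  have h6 : ((Finset.univ.filter (fun ω => f ω ≤ μ - t)).card : ℝ) * Real.exp (lam * t)
      ≤ (Real.exp (-(t ^ 2 / (2 * b ^ 2 * n))) * (Fintype.card (I → L) : ℝ))
        * Real.exp (lam * t) := by
    calc _ ≤ (Fintype.card (I → L) : ℝ) * Real.exp (lam ^ 2 * b ^ 2 * n / 2) := h4
      _ = _ := by rw [← h5]; ring
  exact le_of_mul_le_mul_right h6 (Real.exp_pos _)

end Pool.Agent.Helper7.KS2
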