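import Pool.Agent.Helper7.KS2.Edge

set_option autoImplicit false
open Classical

namespace Pool.Agent.Helper7.KS2

section

variable {V : Type} [Fintype V]

/-- number of neighbours of `v` outside `X` -/
noncomputable def outd (G : SimpleGraph V) (X : Finset V) (v : V) : ℕ :=
  (Finset.univ.filter (fun w => G.Adj v w ∧ w ∉ X)).card

/-- ordered adjacent pairs with at least one member in `X` -/
noncomputable def inc (G : SimpleGraph V) (X : Finset V) : ℕ :=
  ∑ u, ∑ w, if G.Adj u w ∧ (u ∈ X ∨ w ∈ X) then 1 else 0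

theorem inc_le (G : SimpleGraph V) (X : Finset V) : inc G X ≤ adj2 G Finset.univ := by
  unfold inc
  rw [adj2_eq]
  refine Finset.sum_le_sum fun u _ => Finset.sum_le_sum fun w _ => ?_
  by_cases h : G.Adj u w
  · simp only [h, true_and, if_true]
    split_ifs <;> omega
  · simp [h]

theorem sum_mem_eq (Y : Finset V) (f : V → ℕ) : ∑ u ∈ Y, f u = ∑ u, if u ∈ Y then f u else 0 := by
  rw [Finset.sum_ite_mem, Finset.univ_inter]

theorem inc_sdiff (G : SimpleGraph V) (X Y : Finset V) (hY : Y ⊆ X) :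
    inc G X = inc G (X \ Y) + (adj2 G Y + 2 * ∑ u ∈ Y, outd G X u) := by
  have h1 : adj2 G Y = ∑ u, ∑ w, if G.Adj u w ∧ (u ∈ Y ∧ w ∈ Y) then 1 else 0 := by
    rw [adj2_eq, sum_mem_eq]
    refine Finset.sum_congr rfl fun u _ => ?_
    by_cases hu : u ∈ Y
    · rw [if_pos hu, sum_mem_eq]
      refine Finset.sum_congr rfl fun w _ => ?_
      by_cases hw : w ∈ Y <;> simp [hu, hw]
    · simp [hu]
  have h2 : ∑ u ∈ Y, outd G X u = ∑ u, ∑ w, if G.Adj u w ∧ (u ∈ Y ∧ w ∉ X) then 1 else 0 := by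
    rw [sum_mem_eq]
    refine Finset.sum_congr rfl fun u _ => ?_
    by_cases hu : u ∈ Y
    · rw [if_pos hu, outd, Finset.card_filter]
      refine Finset.sum_congr rfl fun w _ => ?_
      simp [hu]
    · simp [hu]
  have h3 : ∑ u ∈ Y, outd G X u = ∑ u, ∑ w, if G.Adj u w ∧ (w ∈ Y ∧ u ∉ X) then 1 else 0 := by
    rw [h2, Finset.sum_comm]
    refine Finset.sum_congr rfl fun u _ => Finset.sum_congr rfl fun w _ => ?_
    simp only [G.adj_comm u w]
  rw [two_mul]
  nth_rewrite 1 [h2]
  rw [h3, h1]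
  unfold inc
  simp only [← Finset.sum_add_distrib]
  refine Finset.sum_congr rfl fun u _ => Finset.sum_congr rfl fun w _ => ?_
  by_cases hG : G.Adj u w
  · by_cases hu : u ∈ X <;> by_cases hw : w ∈ X <;> by_cases hu' : u ∈ Y <;> by_cases hw' : w ∈ Y <;>
      first
        | exact absurd (hY hu') hu
        | exact absurd (hY hw') hw
        | simp [hG, hu, hw, hu', hw']
  · simp [hG]

theorem dg_split (G : SimpleGraph V) (X : Finset V) (v : V) :
    dg G v = (X.filter (fun w => G.Adj v w)).card + outd G X v := by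
  unfold dg outd
  rw [← Finset.card_filter_add_card_filter_not (s := Finset.univ.filter (fun w => G.Adj v w))
    (fun w => w ∈ X)]
  congr 1
  · congr 1
    ext w
    simp [and_comm]
  · congr 1
    ext w
    simp

theorem sum_dg (G : SimpleGraph V) : ∑ v, dg G v = adj2 G Finset.univ := rfl

/-- choice of the set `X` -/
theorem choose_X (G : SimpleGraph V) (S0 : Finset V) (B : ℝ) (h0 : S0.Nonempty)
    (hS : (inc G S0 : ℝ) ≤ 2 * B * S0.card) :
    ∃ X : Finset V, X ⊆ S0 ∧ X.Nonempty ∧ ∀ Y : Finset V, Y ⊆ X → Y.Nonempty →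
      (adj2 G Y : ℝ) / 2 + ∑ u ∈ Y, (outd G X u : ℝ) ≤ B * Y.card := by
  obtain ⟨X, hX, hmin⟩ := Finset.exists_min_image
    (S0.powerset.filter (fun X => X.Nonempty ∧ (inc G X : ℝ) ≤ 2 * B * X.card)) (fun X => X.card)
    ⟨S0, by simp [h0, hS]⟩
  simp only [Finset.mem_filter, Finset.mem_powerset] at hX hmin
  obtain ⟨hXS, hXne, hXinc⟩ := hX
  refine ⟨X, hXS, hXne, ?_⟩
  intro Y hY hYne
  have hinc := inc_sdiff G X Y hY
  have hincr : (inc G X : ℝ) = (inc G (X \ Y) : ℝ) + ((adj2 G Y : ℝ)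
      + 2 * ∑ u ∈ Y, (outd G X u : ℝ)) := by
    rw [hinc]; push_cast; ring
  have hcard : ((X \ Y).card : ℝ) = (X.card : ℝ) - Y.card := by
    rw [Finset.card_sdiff_of_subset hY, Nat.cast_sub (Finset.card_le_card hY)]
  rcases (X \ Y).eq_empty_or_nonempty with he | hne
  · rw [he] at hincr hcard
    have : (inc G ∅ : ℝ) = 0 := by simp [inc]
    rw [this] at hincr
    rw [Finset.card_empty, Nat.cast_zero] at hcard
    have : (X.card : ℝ) = Y.card := by linarith
    rw [this] at hXinc
    linarith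
  · have hlt : (X \ Y).card < X.card := by
      have := Finset.card_pos.mpr hYne
      have := Finset.card_le_card hY
      rw [Finset.card_sdiff_of_subset hY]
      omega
    by_contra hcon
    push Not at hcon
    have hmem : (inc G (X \ Y) : ℝ) ≤ 2 * B * (X \ Y).card := by
      rw [hcard]
      linarith
    have := hmin (X \ Y) ⟨Finset.sdiff_subset.trans hXS, hne, hmem⟩
    omega

end

end Pool.Agent.Helper7.KS2
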