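import Pool.Agent.Helper51.Girth4.LLL

/-!
# Statements of the packets for MP_c4bd07_co: chi <= (2 - delta) M

Union of degenerate graphs, `M` = sum of the degeneracies, largest one at least `κ M`.
-/

set_option autoImplicit false
open Classical

namespace Pool.Agent.Helper7.KS2

open Pool.Agent.Helper41.Girth4 (Pr)

/-- degree of `v` -/
noncomputable def dg {V : Type} [Fintype V] (G : SimpleGraph V) (v : V) : ℕ :=
  (Finset.univ.filter (fun w => G.Adj v w)).card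

/-- twice the number of edges inside `Y` -/
noncomputable def adj2 {V : Type} [Fintype V] (G : SimpleGraph V) (Y : Finset V) : ℕ :=
  ∑ u ∈ Y, (Y.filter (fun w => G.Adj u w)).card

/-- The random choice `ω u = (α, b)`; the vertex `u` is activated with the colour `α` if
`ω u = (α, 0)` and `α` is in the list of `u`. -/
def col {V : Type} {c Q : ℕ} (L : V → Finset (Fin c)) (ω : V → Fin c × Fin (Q + 1)) (u : V)
    (α : Fin c) : Prop :=
  ω u = (α, 0) ∧ α ∈ L u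

/-- The colour `α` is saving at `v`: either exactly two neighbours `u, w` of `v` are activated with
`α`, they are not adjacent, and no vertex outside `N(v)` adjacent to `u` or `w` is activated with
`α`; or `α` is not in the list of `v`, exactly one neighbour `u` of `v` is activated with `α` and
no vertex outside `N(v)` adjacent to `u` is activated with `α`. -/
def sav {V : Type} {c Q : ℕ} (G : SimpleGraph V) (L : V → Finset (Fin c))
    (ω : V → Fin c × Fin (Q + 1)) (v : V) (α : Fin c) : Prop :=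
  (∃ u w, u ≠ w ∧ G.Adj v u ∧ G.Adj v w ∧ ¬ G.Adj u w ∧ col L ω u α ∧ col L ω w α ∧
    (∀ z, G.Adj v z → col L ω z α → z = u ∨ z = w) ∧
    (∀ z, (G.Adj u z ∨ G.Adj w z) → ¬ G.Adj v z → ¬ col L ω z α)) ∨
  (α ∉ L v ∧ ∃ u, G.Adj v u ∧ col L ω u α ∧ (∀ z, G.Adj v z → col L ω z α → z = u) ∧
    (∀ z, G.Adj u z → ¬ G.Adj v z → ¬ col L ω z α))

/-- number of saving colours at `v` -/
noncomputable def nsav {V : Type} {c Q : ℕ} (G : SimpleGraph V) (L : V → Finset (Fin c))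
    (ω : V → Fin c × Fin (Q + 1)) (v : V) : ℕ :=
  (Finset.univ.filter (fun α => sav G L ω v α)).card

/-- many ordered pairs of non-adjacent neighbours with intersecting lists -/
def richB {V : Type} [Fintype V] {c : ℕ} (G : SimpleGraph V) (L : V → Finset (Fin c))
    (θ : ℝ) (M : ℕ) (v : V) : Prop :=
  θ * (M : ℝ) ^ 2 ≤ ((Finset.univ.filter (fun p : V × V => G.Adj v p.1 ∧ G.Adj v p.2 ∧
    p.1 ≠ p.2 ∧ ¬ G.Adj p.1 p.2 ∧ θ * M ≤ (((L p.1 ∩ L p.2).card : ℕ) : ℝ))).card : ℝ)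

/-- many neighbours whose list is not almost contained in the list of `v` -/
def richC {V : Type} [Fintype V] {c : ℕ} (G : SimpleGraph V) (L : V → Finset (Fin c))
    (θ : ℝ) (M : ℕ) (v : V) : Prop :=
  θ * (M : ℝ) ≤ ((Finset.univ.filter (fun u : V => G.Adj v u ∧
    θ * M ≤ (((L u \ L v).card : ℕ) : ℝ))).card : ℝ)

/-- replace the coordinates of `ω₀` in the neighbourhood of `v` by those of `ω` -/
noncomputable def mg {V : Type} {X : Type} (G : SimpleGraph V) (v : V) (ω ω₀ : V → X) : V → X :=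
  fun z => if G.Adj v z then ω z else ω₀ z

/-- Packet A (lower tail of McDiarmid's inequality on a finite product space). -/
def StmtMcD : Prop :=
  ∀ {I L : Type} [Fintype I] [Fintype L] [Nonempty L] (S : Finset I) (f : (I → L) → ℝ)
    (b : ℝ) (n : ℕ), 0 < b → 0 < n → S.card ≤ n →
    (∀ ω i l, |f (Function.update ω i l) - f ω| ≤ if i ∈ S then b else 0) →
    ∀ t : ℝ, 0 ≤ t →
      Pr (fun ω => f ω ≤ (∑ ω, f ω) / (Fintype.card (I → L) : ℝ) - t)
        ≤ Real.exp (-(t ^ 2 / (2 * b ^ 2 * n)))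

/-- Packet B1 (mean of the number of saving colours, given a good outside configuration). -/
def StmtMean : Prop :=
  ∀ (θ : ℝ) (Q M c : ℕ), 0 < θ → θ ≤ 1 → 48 ≤ θ * ((Q : ℝ) + 1) → 1 ≤ M → c ≤ 2 * M →
  ∀ (V : Type) [Fintype V] (G : SimpleGraph V) (L : V → Finset (Fin c)),
    (∀ v, dg G v ≤ 3 * M) → ∀ v, (richB G L θ M v ∨ richC G L θ M v) →
    ∀ ω₀ : V → Fin c × Fin (Q + 1),
    (∀ u, G.Adj v u → ((Finset.univ.filter
      (fun z => G.Adj u z ∧ ¬ G.Adj v z ∧ (ω₀ z).2 = 0)).card : ℝ) ≤ θ * M / 8) →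
    θ ^ 2 / (32 * ((Q : ℝ) + 1) ^ 2) * M
      ≤ (∑ ω : V → Fin c × Fin (Q + 1), (nsav G L (mg G v ω ω₀) v : ℝ))
          / (Fintype.card (V → Fin c × Fin (Q + 1)) : ℝ)

/-- Packet B2 (concentration; uses packets A and B1). -/
def StmtConc : Prop :=
  ∀ θ : ℝ, 0 < θ → θ ≤ 1 → ∃ (Q : ℕ) (s : ℝ) (M₀ : ℕ), 0 < s ∧ ∀ M : ℕ, M₀ ≤ M → ∀ c : ℕ,
    c ≤ 2 * M → ∀ (V : Type) [Fintype V] (G : SimpleGraph V) (L : V → Finset (Fin c)),
    (∀ v, dg G v ≤ 3 * M) → ∀ v, (richB G L θ M v ∨ richC G L θ M v) →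
    Pr (fun ω : V → Fin c × Fin (Q + 1) => (nsav G L ω v : ℝ) < s * M)
      ≤ 1 / (4 * (3 * (M : ℝ) + 1) ^ 4)

/-- Packet E (the local lemma applied to the numbers of saving colours). -/
def StmtLocalL : Prop :=
  ∀ (Q M c : ℕ) (s : ℝ), 1 ≤ M → 1 ≤ c →
  ∀ (V : Type) [Fintype V] (G : SimpleGraph V) (L : V → Finset (Fin c)) (T : V → Prop),
    (∀ v, dg G v ≤ 3 * M) →
    (∀ v, T v → Pr (fun ω : V → Fin c × Fin (Q + 1) => (nsav G L ω v : ℝ) < s)
      ≤ 1 / (4 * (3 * (M : ℝ) + 1) ^ 4)) →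
    ∃ ω : V → Fin c × Fin (Q + 1), ∀ v, T v → s ≤ (nsav G L ω v : ℝ)

/-- Packet C (finishing the colouring). -/
def StmtFinish : Prop :=
  ∀ (V : Type) [Fintype V] (G : SimpleGraph V) (c Q : ℕ) (L : V → Finset (Fin c))
    (ω : V → Fin c × Fin (Q + 1)), (∀ v, dg G v < (L v).card + nsav G L ω v) →
    ∃ φ : V → Fin c, (∀ v, φ v ∈ L v) ∧ ∀ u v, G.Adj u v → φ u ≠ φ v

/-- Packet D (every vertex has a long list, or many non-adjacent pairs of neighbours with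
intersecting lists, or many neighbours with different lists). -/
def StmtComb : Prop :=
  ∀ (κ θ : ℝ), 0 < κ → κ ≤ 1 → θ = κ ^ 4 / 400 → ∀ M : ℕ, 1 ≤ θ * (M : ℝ) → ∀ c : ℕ,
    c ≤ 2 * M →
  ∀ (V : Type) [Fintype V] (G : SimpleGraph V) (L : V → Finset (Fin c)) (o : V → ℕ),
    (∀ v, (2 - 2 * θ) * (M : ℝ) ≤ (dg G v : ℝ) + o v) →
    (∀ v, (dg G v : ℝ) + o v ≤ (2 + θ) * (M : ℝ)) →
    (∀ v, (2 - 2 * θ) * (M : ℝ) ≤ ((L v).card : ℝ) + o v) →
    (∀ Y : Finset V, Y.Nonempty →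
      (adj2 G Y : ℝ) / 2 + ∑ u ∈ Y, (o u : ℝ) ≤ (1 + θ) * (M : ℝ) * Y.card) →
    (∀ Y : Finset V, M ≤ Y.card →
      (adj2 G Y : ℝ) ≤ 2 * (M : ℝ) * Y.card - κ ^ 2 * (M : ℝ) ^ 2) →
    ∀ v, (dg G v : ℝ) + θ * M ≤ ((L v).card : ℝ) ∨ richB G L θ M v ∨ richC G L θ M v

end Pool.Agent.Helper7.KS2
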