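import Pool.Agent.Helper7.KS2.Defs
import Pool.Agent.Helper7.KS.Composed

set_option autoImplicit false
open Classical

namespace Pool.Agent.Helper7.KS2

section

variable {V : Type} [Fintype V]

theorem adj2_eq (G : SimpleGraph V) (Y : Finset V) :
    adj2 G Y = ∑ u ∈ Y, ∑ w ∈ Y, if G.Adj u w then 1 else 0 := by
  unfold adj2
  refine Finset.sum_congr rfl fun u _ => ?_
  rw [Finset.card_filter]

theorem adj2_insert (G : SimpleGraph V) (Y : Finset V) (v : V) (hv : v ∉ Y) :
    adj2 G (insert v Y) = adj2 G Y + 2 * (Y.filter (fun w => G.Adj v w)).card := by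
  rw [adj2_eq, adj2_eq, Finset.card_filter]
  rw [Finset.sum_insert hv]
  have h1 : ∀ u ∈ Y, ∑ w ∈ insert v Y, (if G.Adj u w then 1 else 0)
      = (if G.Adj v u then 1 else 0) + ∑ w ∈ Y, (if G.Adj u w then 1 else 0) := by
    intro u _
    rw [Finset.sum_insert hv]
    simp only [G.adj_comm u v]
  rw [Finset.sum_congr rfl h1, Finset.sum_insert hv, Finset.sum_add_distrib]
  simp only [SimpleGraph.irrefl, if_false]
  ring

theorem adj2_le_sq (G : SimpleGraph V) (Y : Finset V) : adj2 G Y ≤ Y.card * (Y.card - 1) := by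
  unfold adj2
  rw [← smul_eq_mul, ← Finset.sum_const]
  refine Finset.sum_le_sum fun u hu => ?_
  have h1 : Y.filter (fun w => G.Adj u w) ⊆ Y.erase u := by
    intro w hw
    rw [Finset.mem_filter] at hw
    exact Finset.mem_erase.mpr ⟨fun h => by subst h; exact G.irrefl hw.2, hw.1⟩
  have h2 := Finset.card_le_card h1
  rwa [Finset.card_erase_of_mem hu] at h2

theorem degen_edge (D : SimpleGraph V) (d : ℕ)
    (h : ∀ S : Finset V, S.Nonempty → ∃ v ∈ S, (S.filter (fun w => D.Adj v w)).card ≤ d)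
    (Y : Finset V) : adj2 D Y ≤ 2 * d * Y.card ∧ (d ≤ Y.card → adj2 D Y + d ^ 2 ≤ 2 * d * Y.card) := by
  have key : ∀ (n : ℕ) (Y : Finset V), Y.card = n →
      adj2 D Y ≤ 2 * d * Y.card ∧ (d ≤ Y.card → adj2 D Y + d ^ 2 ≤ 2 * d * Y.card) := by
    intro n
    induction n with
    | zero =>
      intro Y hY
      have : Y = ∅ := Finset.card_eq_zero.mp hY
      subst this
      simp only [adj2, Finset.sum_empty, Finset.card_empty]
      constructor
      · omega
      · intro h; have : d = 0 := by omega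
        subst this; simp
    | succ n ih =>
      intro Y hY
      have hne : Y.Nonempty := by rw [← Finset.card_pos]; omega
      obtain ⟨v, hv, hvd⟩ := h Y hne
      have hc : (Y.erase v).card = n := by rw [Finset.card_erase_of_mem hv, hY]; rfl
      obtain ⟨i1, i2⟩ := ih (Y.erase v) hc
      have hins := adj2_insert D (Y.erase v) v (Finset.notMem_erase v Y)
      rw [Finset.insert_erase hv] at hins
      have hle : ((Y.erase v).filter (fun w => D.Adj v w)).card ≤ d :=
        le_trans (Finset.card_le_card (Finset.filter_subset_filter _ (Finset.erase_subset _ _))) hvd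
      rw [hc] at i1 i2
      rw [hY, hins]
      constructor
      · nlinarith
      · intro hd
        rcases Nat.lt_or_ge n d with h1 | h1
        · -- n + 1 = d
          have h2 : d = n + 1 := by omega
          have h3 := adj2_le_sq D Y
          rw [hY, hins] at h3
          have h4 : (n + 1) * (n + 1 - 1) ≤ (n + 1) * n := by simp
          subst h2
          nlinarith
        · have := i2 h1
          nlinarith
  exact key _ Y rfl

theorem composed_adj2 {k : ℕ} (G : SimpleGraph V) (H : Fin k → SimpleGraph V)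
    (hG : G = ⨆ i, H i) (Y : Finset V) : adj2 G Y ≤ ∑ i, adj2 (H i) Y := by
  simp only [adj2_eq]
  have h0 : ∑ i : Fin k, ∑ u ∈ Y, ∑ w ∈ Y, (if (H i).Adj u w then 1 else 0)
      = ∑ u ∈ Y, ∑ w ∈ Y, ∑ i : Fin k, (if (H i).Adj u w then 1 else 0) := by
    rw [Finset.sum_comm]
    refine Finset.sum_congr rfl fun u _ => ?_
    rw [Finset.sum_comm]
  rw [h0]
  refine Finset.sum_le_sum fun u _ => ?_
  refine Finset.sum_le_sum fun w _ => ?_
  split_ifs with h
  · rw [hG, SimpleGraph.iSup_adj] at h
    obtain ⟨i, hi⟩ := h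
    have := Finset.single_le_sum (f := fun i => if (H i).Adj u w then 1 else 0)
      (fun i _ => Nat.zero_le _) (Finset.mem_univ i)
    simpa [hi] using this
  · exact Nat.zero_le _

theorem composed_edge {k : ℕ} {m : Fin k → ℕ} (G : SimpleGraph V) (H : Fin k → SimpleGraph V)
    (h : ∀ i, ∀ S : Finset V, S.Nonempty →
          ∃ v ∈ S, (S.filter (fun w => (H i).Adj v w)).card ≤ m i)
    (hG : G = ⨆ i, H i) (Y : Finset V) : adj2 G Y ≤ 2 * (∑ i, m i) * Y.card := by
  refine (composed_adj2 G H hG Y).trans ?_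
  rw [Finset.mul_sum, Finset.sum_mul]
  exact Finset.sum_le_sum fun i _ => (degen_edge (H i) (m i) (h i) Y).1

theorem composed_edge' {k : ℕ} {m : Fin k → ℕ} (G : SimpleGraph V) (H : Fin k → SimpleGraph V)
    (h : ∀ i, ∀ S : Finset V, S.Nonempty →
          ∃ v ∈ S, (S.filter (fun w => (H i).Adj v w)).card ≤ m i)
    (hG : G = ⨆ i, H i) (Y : Finset V) (i₀ : Fin k) (hY : m i₀ ≤ Y.card) :
    adj2 G Y + (m i₀) ^ 2 ≤ 2 * (∑ i, m i) * Y.card := by
  have h1 := composed_adj2 G H hG Y
  rw [← Finset.add_sum_erase _ _ (Finset.mem_univ i₀)] at h1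
  have h2 := (degen_edge (H i₀) (m i₀) (h i₀) Y).2 hY
  have h3 : ∑ i ∈ Finset.univ.erase i₀, adj2 (H i) Y
      ≤ ∑ i ∈ Finset.univ.erase i₀, 2 * m i * Y.card :=
    Finset.sum_le_sum fun i _ => (degen_edge (H i) (m i) (h i) Y).1
  have h4 : 2 * (∑ i, m i) * Y.card = 2 * m i₀ * Y.card
      + ∑ i ∈ Finset.univ.erase i₀, 2 * m i * Y.card := by
    rw [← Finset.add_sum_erase _ _ (Finset.mem_univ i₀), ← Finset.sum_mul, ← Finset.mul_sum]
    ring
  omega

end

end Pool.Agent.Helper7.KS2
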