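import Pool.Agent.Helper7.KS2.Step
import Pool.Agent.Helper7.KS2.McD
import Pool.Agent.Helper45.KS2_B1
import Pool.Agent.Helper77.KS2.Conc
import Pool.Agent.Helper40.KS2_C
import Pool.Agent.Helper41.KS2_Comb
import Pool.Agent.Helper9.KS2_E

set_option autoImplicit false
open Classical

namespace Pool.Agent.Helper7.KS2

theorem main (κ : ℝ) (hκ : 0 < κ) :
    ∃ δ : ℝ, 0 < δ ∧ ∃ M₀ : ℕ, ∀ (k : ℕ) (m : Fin k → ℕ) (V : Type) [Fintype V]
      (G : SimpleGraph V) (H : Fin k → SimpleGraph V),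
      Deg m H → G = ⨆ i, H i → (∃ i, κ * ((∑ i, m i : ℕ) : ℝ) ≤ m i) → M₀ ≤ ∑ i, m i →
      G.Colorable ⌊(2 - δ) * ((∑ i, m i : ℕ) : ℝ)⌋₊ := by
  set κ' : ℝ := min κ 1 with hκ'
  have hκ'0 : 0 < κ' := lt_min hκ one_pos
  have hκ'1 : κ' ≤ 1 := min_le_right _ _
  set θ : ℝ := κ' ^ 4 / 400 with hθ
  have hθ0 : 0 < θ := by positivity
  have hθ1 : θ ≤ 1 := by
    have : κ' ^ 4 ≤ 1 := pow_le_one₀ hκ'0.le hκ'1
    rw [hθ]; linarith
  obtain ⟨Q, s, Mc, hs, hConc⟩ := Helper77.KS2.stmtConc stmtMcD Helper45.KS2.stmtMean θ hθ0 hθ1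
  set γ : ℝ := min θ (s / 2) with hγ
  have hγ0 : 0 < γ := lt_min hθ0 (by linarith)
  refine ⟨γ * θ / 4, by positivity, max (max Mc 1) (max ⌈1 / θ⌉₊ ⌈4 / (γ * θ)⌉₊), ?_⟩
  intro k m V _ G H hH hG ⟨i₀, hi₀⟩ hM
  set M := ∑ i, m i with hMdef
  have hM1 : Mc ≤ M := le_trans (le_trans (le_max_left _ _) (le_max_left _ _)) hM
  have hM2 : 1 ≤ M := le_trans (le_trans (le_max_right _ _) (le_max_left _ _)) hM
  have hM3 : ⌈1 / θ⌉₊ ≤ M := le_trans (le_trans (le_max_left _ _) (le_max_right _ _)) hM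
  have hM4 : ⌈4 / (γ * θ)⌉₊ ≤ M := le_trans (le_trans (le_max_right _ _) (le_max_right _ _)) hM
  have hM3' : 1 ≤ θ * (M : ℝ) := by
    have h1 : 1 / θ ≤ M := (Nat.le_ceil _).trans (by exact_mod_cast hM3)
    rw [div_le_iff₀ hθ0] at h1
    linarith
  have hM4' : 4 ≤ γ * θ * (M : ℝ) := by
    have h1 : 4 / (γ * θ) ≤ M := (Nat.le_ceil _).trans (by exact_mod_cast hM4)
    rw [div_le_iff₀ (by positivity)] at h1
    linarith
  have hi₀' : κ' * (M : ℝ) ≤ m i₀ :=
    le_trans (mul_le_mul_of_nonneg_right (min_le_left _ _) (Nat.cast_nonneg _)) hi₀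
  set c : ℕ := ⌊(2 - γ * θ / 4) * (M : ℝ)⌋₊ with hc
  have hMr : (1 : ℝ) ≤ M := by exact_mod_cast hM2
  have hγ1 : γ ≤ 1 := (min_le_left _ _).trans hθ1
  have hc1 : 0 < c := by
    have h1 : γ * θ ≤ 1 := mul_le_one₀ hγ1 hθ0.le hθ1
    have h2 : (1 : ℝ) ≤ (2 - γ * θ / 4) * M := by nlinarith
    have h3 : 1 ≤ ⌊(2 - γ * θ / 4) * (M : ℝ)⌋₊ := Nat.le_floor (by simpa using h2)
    omega
  have key : ∀ (n : ℕ) (V : Type) [Fintype V] (G : SimpleGraph V) (H : Fin k → SimpleGraph V),
      Fintype.card V = n → Deg m H → G = ⨆ i, H i → G.Colorable c := by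
    intro n
    induction n using Nat.strong_induction_on with
    | _ n ih =>
      intro V _ G H hn hH hG
      rcases isEmpty_or_nonempty V with hV | hV
      · exact ⟨SimpleGraph.Coloring.mk (fun v => isEmptyElim v) (fun {v} => isEmptyElim v)⟩
      have hIH : ∀ X : Finset V, X.Nonempty →
          (G.comap (Subtype.val : {x // x ∉ X} → V)).Colorable c := by
        intro X hX
        refine ih (Fintype.card {x // x ∉ X}) ?_ _ _ _ rfl (deg_comap hH _) (sup_comap hG _)
        rw [← hn]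
        obtain ⟨x, hx⟩ := hX
        exact Fintype.card_subtype_lt (x := x) (by simpa using hx)
      by_cases hdeg : ∀ v, c ≤ dg G v
      · exact main_step Helper41.KS2.stmtComb Helper9.KS2E.stmtLocalL Helper40.KS2C.stmtFinish
          M hMdef i₀ κ' θ s γ (γ * θ / 4) Q c hκ'0 hκ'1 hθ hi₀' hs
          (fun V _ G L h1 v h2 => hConc M hM1 c (by
            have h3 : (c : ℝ) ≤ ((2 * M : ℕ) : ℝ) := by
              have h4 : (c : ℝ) ≤ (2 - γ * θ / 4) * M := Nat.floor_le (by
                have : γ * θ ≤ 1 := mul_le_one₀ hγ1 hθ0.le hθ1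
                exact mul_nonneg (by linarith) (by linarith))
              have h5 : 0 ≤ γ * θ * (M : ℝ) := by positivity
              push_cast
              linarith
            exact_mod_cast h3) V G L h1 v h2)
          hγ0 (min_le_left _ _) (min_le_right _ _) rfl hM3' hM4' hM2 hc V G H hH hG hV hdeg hIH
      · push Not at hdeg
        obtain ⟨v, hv⟩ := hdeg
        obtain ⟨φ, hφ⟩ := out_col hc1 G {v} (hIH {v} (Finset.singleton_nonempty v))
        have hex : ∀ u : {x // x ∈ ({v} : Finset V)}, (lft G {v} φ u).Nonempty := by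
          intro u
          have hu : u.1 = v := Finset.mem_singleton.mp u.2
          rw [← Finset.card_pos]
          have h1 := lft_card G {v} φ u
          have h2 : outd G {v} u ≤ dg G v := by
            rw [hu]
            unfold outd dg
            refine Finset.card_le_card ?_
            intro w hw
            rw [Finset.mem_filter] at hw ⊢
            exact ⟨hw.1, hw.2.1⟩
          omega
        choose ψ hψ using hex
        refine extend_col G {v} φ hφ ψ hψ ?_
        intro a b hab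
        exfalso
        have ha : a.1 = v := Finset.mem_singleton.mp a.2
        have hb : b.1 = v := Finset.mem_singleton.mp b.2
        rw [SimpleGraph.comap_adj, ha, hb] at hab
        exact G.irrefl hab
  exact key _ V G H rfl hH hG

end Pool.Agent.Helper7.KS2
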