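import Pool.Agent.Helper7.KS2.Choose

set_option autoImplicit false
open Classical

namespace Pool.Agent.Helper7.KS2

open Pool.Agent.Helper41.Girth4 (Pr)

section

set_option linter.unusedSectionVars false

variable {V : Type} [Fintype V]

/-- all the pieces are degenerate -/
def Deg {k : ℕ} (m : Fin k → ℕ) {V : Type} (H : Fin k → SimpleGraph V) : Prop :=
  ∀ i, ∀ S : Finset V, S.Nonempty → ∃ v ∈ S, (S.filter (fun w => (H i).Adj v w)).card ≤ m i

theorem deg_comap {k : ℕ} {m : Fin k → ℕ} {H : Fin k → SimpleGraph V} (h : Deg m H)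
    (p : V → Prop) : Deg m (fun i => (H i).comap (Subtype.val : {x // p x} → V)) := by
  intro i S hS
  obtain ⟨v, hv, hvd⟩ := h i (S.map (Function.Embedding.subtype _)) (by simpa using hS)
  rw [Finset.mem_map] at hv
  obtain ⟨v', hv', rfl⟩ := hv
  refine ⟨v', hv', ?_⟩
  rw [Finset.filter_map, Finset.card_map] at hvd
  exact hvd

theorem sup_comap {k : ℕ} {G : SimpleGraph V} {H : Fin k → SimpleGraph V} (hG : G = ⨆ i, H i)
    (p : V → Prop) : G.comap (Subtype.val : {x // p x} → V)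
      = ⨆ i, (H i).comap (Subtype.val : {x // p x} → V) := by
  ext a b
  rw [SimpleGraph.iSup_adj, hG, SimpleGraph.comap_adj, SimpleGraph.iSup_adj]
  rfl

theorem dg_comap (G : SimpleGraph V) (X : Finset V) (v : {x // x ∈ X}) :
    dg (G.comap (Subtype.val : {x // x ∈ X} → V)) v = (X.filter (fun w => G.Adj v w)).card := by
  unfold dg
  refine Finset.card_bij (fun w _ => w.1) ?_ ?_ ?_
  · intro a ha
    simp only [Finset.mem_filter, Finset.mem_univ, true_and, SimpleGraph.comap_adj] at ha ⊢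
    exact ⟨a.2, ha⟩
  · intro a _ b _ hab
    exact Subtype.ext hab
  · intro b hb
    rw [Finset.mem_filter] at hb
    exact ⟨⟨b, hb.1⟩, by simpa using hb.2, rfl⟩

theorem adj2_comap (G : SimpleGraph V) (X : Finset V) (Y : Finset {x // x ∈ X}) :
    adj2 (G.comap (Subtype.val : {x // x ∈ X} → V)) Y
      = adj2 G (Y.map (Function.Embedding.subtype _)) := by
  unfold adj2
  rw [Finset.sum_map]
  refine Finset.sum_congr rfl fun u _ => ?_
  rw [Finset.filter_map, Finset.card_map]
  rfl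

/-- lists left on `X` by a colouring of the outside -/
noncomputable def lft {c : ℕ} (G : SimpleGraph V) (X : Finset V) (φ : V → Fin c)
    (v : {x // x ∈ X}) : Finset (Fin c) :=
  Finset.univ \ (Finset.univ.filter (fun w => G.Adj v w ∧ w ∉ X)).image φ

theorem lft_card {c : ℕ} (G : SimpleGraph V) (X : Finset V) (φ : V → Fin c)
    (v : {x // x ∈ X}) : c ≤ (lft G X φ v).card + outd G X v := by
  unfold lft outd
  rw [Finset.card_sdiff_of_subset (Finset.subset_univ _), Finset.card_univ, Fintype.card_fin]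
  have := Finset.card_image_le (s := Finset.univ.filter (fun w => G.Adj v w ∧ w ∉ X)) (f := φ)
  omega

theorem extend_col {c : ℕ} (G : SimpleGraph V) (X : Finset V) (φ : V → Fin c)
    (hφ : ∀ u w, u ∉ X → w ∉ X → G.Adj u w → φ u ≠ φ w)
    (ψ : {x // x ∈ X} → Fin c) (hψ : ∀ v, ψ v ∈ lft G X φ v)
    (hψ' : ∀ u v, (G.comap (Subtype.val : {x // x ∈ X} → V)).Adj u v → ψ u ≠ ψ v) :
    G.Colorable c := by
  have hmix : ∀ (u : {x // x ∈ X}) (w : V), w ∉ X → G.Adj u w → ψ u ≠ φ w := by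
    intro u w hw huw hcon
    have := hψ u
    simp only [lft, Finset.mem_sdiff, Finset.mem_univ, true_and, Finset.mem_image,
      Finset.mem_filter, not_exists, not_and] at this
    exact this w ⟨huw, hw⟩ hcon.symm
  refine ⟨SimpleGraph.Coloring.mk (fun v => if h : v ∈ X then ψ ⟨v, h⟩ else φ v) ?_⟩
  intro u w huw
  by_cases hu : u ∈ X
  · by_cases hw : w ∈ X
    · simp only [dif_pos hu, dif_pos hw]
      exact hψ' ⟨u, hu⟩ ⟨w, hw⟩ huw
    · simp only [dif_pos hu, dif_neg hw]
      exact hmix ⟨u, hu⟩ w hw huw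
  · by_cases hw : w ∈ X
    · simp only [dif_neg hu, dif_pos hw]
      exact (hmix ⟨w, hw⟩ u hu huw.symm).symm
    · simp only [dif_neg hu, dif_neg hw]
      exact hφ u w hu hw huw

theorem out_col {c : ℕ} (hc : 0 < c) (G : SimpleGraph V) (X : Finset V)
    (h : (G.comap (Subtype.val : {x // x ∉ X} → V)).Colorable c) :
    ∃ φ : V → Fin c, ∀ u w, u ∉ X → w ∉ X → G.Adj u w → φ u ≠ φ w := by
  obtain ⟨C⟩ := h
  refine ⟨fun v => if h : v ∉ X then C ⟨v, h⟩ else ⟨0, hc⟩, ?_⟩
  intro u w hu hw huw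
  simp only [dif_pos hu, dif_pos hw]
  exact C.valid (v := ⟨u, hu⟩) (w := ⟨w, hw⟩) huw

set_option maxHeartbeats 2000000 in
/-- The main step: a composed graph with all degrees at least `c`, all of whose proper induced
subgraphs are `c`-colourable, is `c`-colourable. -/
theorem main_step (hComb : StmtComb) (hLoc : StmtLocalL) (hFin : StmtFinish)
    {k : ℕ} {m : Fin k → ℕ} (M : ℕ) (hM : M = ∑ i, m i) (i₀ : Fin k)
    (κ θ s γ δ : ℝ) (Q c : ℕ) (hκ : 0 < κ) (hκ1 : κ ≤ 1) (hθ : θ = κ ^ 4 / 400)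
    (hi₀ : κ * M ≤ m i₀) (hs : 0 < s)
    (hConc : ∀ (V : Type) [Fintype V] (G : SimpleGraph V) (L : V → Finset (Fin c)),
      (∀ v, dg G v ≤ 3 * M) → ∀ v, (richB G L θ M v ∨ richC G L θ M v) →
      Pr (fun ω : V → Fin c × Fin (Q + 1) => (nsav G L ω v : ℝ) < s * M)
        ≤ 1 / (4 * (3 * (M : ℝ) + 1) ^ 4))
    (hγ : 0 < γ) (hγθ : γ ≤ θ) (hγs : γ ≤ s / 2) (hδ : δ = γ * θ / 4)
    (hM1 : 1 ≤ θ * (M : ℝ)) (hM2 : 4 ≤ γ * θ * (M : ℝ)) (hM3 : 1 ≤ M)
    (hc : c = ⌊(2 - δ) * (M : ℝ)⌋₊)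
    (V : Type) [Fintype V] (G : SimpleGraph V) (H : Fin k → SimpleGraph V)
    (hH : Deg m H) (hG : G = ⨆ i, H i) (hne : Nonempty V) (hdeg : ∀ v, c ≤ dg G v)
    (hIH : ∀ X : Finset V, X.Nonempty → (G.comap (Subtype.val : {x // x ∉ X} → V)).Colorable c) :
    G.Colorable c := by
  have hMr : (1 : ℝ) ≤ M := by exact_mod_cast hM3
  have hθ0 : 0 < θ := by rw [hθ]; positivity
  have hθ1 : θ ≤ 1 / 400 := by
    rw [hθ]
    have : κ ^ 4 ≤ 1 := pow_le_one₀ hκ.le hκ1
    linarith
  have hδ0 : 0 < δ := by rw [hδ]; positivity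
  have hδθ : δ ≤ θ / 4 := by
    rw [hδ]
    have : γ * θ ≤ 1 * θ := mul_le_mul_of_nonneg_right (by linarith) hθ0.le
    linarith
  have hδγ : δ ≤ γ / 4 := by
    rw [hδ]
    have : γ * θ ≤ γ * 1 := mul_le_mul_of_nonneg_left (by linarith) hγ.le
    linarith
  have hcr1 : (c : ℝ) ≤ (2 - δ) * M := by
    rw [hc]
    exact Nat.floor_le (mul_nonneg (by linarith) (by linarith))
  have hcr2 : (2 - δ) * M - 1 < c := by
    rw [hc]
    have := Nat.lt_floor_add_one ((2 - δ) * (M : ℝ))
    linarith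
  have hc2M : c ≤ 2 * M := by
    have : (c : ℝ) ≤ ((2 * M : ℕ) : ℝ) := by
      push_cast
      nlinarith
    exact_mod_cast this
  have hc1 : 1 ≤ c := by
    have : (0 : ℝ) < c := by
      have h1 : (1 : ℝ) ≤ (2 - δ) * M - 1 + 1 := by nlinarith
      nlinarith
    exact_mod_cast this
  have hc2θ : (2 - 2 * θ) * (M : ℝ) ≤ c := by nlinarith
  -- total number of edges
  have hE : adj2 G Finset.univ ≤ 2 * M * Fintype.card V := by
    have := composed_edge G H hH hG Finset.univ
    rw [← hM] at this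
    simpa using this
  have hEr : (adj2 G Finset.univ : ℝ) ≤ 2 * M * Fintype.card V := by exact_mod_cast hE
  -- big vertices
  set Big : Finset V := Finset.univ.filter (fun v => (2 + γ) * (M : ℝ) ≤ dg G v) with hBig
  set n : ℝ := ((Fintype.card V : ℕ) : ℝ) with hn
  have hnpos : 0 < n := by rw [hn]; exact_mod_cast Fintype.card_pos
  have hsumdeg : (c : ℝ) * (n - Big.card) + (2 + γ) * M * Big.card ≤ 2 * M * n := by
    refine le_trans ?_ hEr
    have h1 : (adj2 G Finset.univ : ℝ) = ∑ v, (dg G v : ℝ) := by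
      rw [← sum_dg]; push_cast; rfl
    rw [h1, ← Finset.sum_add_sum_compl Big]
    have h2 : (2 + γ) * (M : ℝ) * Big.card ≤ ∑ v ∈ Big, (dg G v : ℝ) := by
      rw [mul_comm, ← nsmul_eq_mul, ← Finset.sum_const]
      refine Finset.sum_le_sum fun v hv => ?_
      rw [hBig, Finset.mem_filter] at hv
      exact hv.2
    have h3 : (c : ℝ) * (n - Big.card) ≤ ∑ v ∈ Bigᶜ, (dg G v : ℝ) := by
      have : ((Bigᶜ).card : ℝ) = n - Big.card := by
        rw [Finset.card_compl, Nat.cast_sub (Finset.card_le_univ _)]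
      rw [← this, mul_comm, ← nsmul_eq_mul, ← Finset.sum_const]
      refine Finset.sum_le_sum fun v _ => ?_
      exact_mod_cast hdeg v
    linarith
  have hBn : (Big.card : ℝ) ≤ θ / 2 * n := by
    have hB0 : (0 : ℝ) ≤ Big.card := Nat.cast_nonneg _
    have h1 : γ * M * Big.card ≤ (δ * M + 1) * n := by
      have h2 : (2 * M - c : ℝ) ≤ δ * M + 1 := by linarith
      have h3 : (2 * M - c : ℝ) * n ≤ (δ * M + 1) * n :=
        mul_le_mul_of_nonneg_right h2 hnpos.le
      have h4 : (c : ℝ) ≤ 2 * M := by exact_mod_cast hc2M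
      nlinarith
    have h5 : (δ * M + 1) ≤ γ * M * (θ / 2) := by
      rw [hδ]; linarith
    have h6 : γ * M * Big.card ≤ γ * M * (θ / 2 * n) := by
      refine h1.trans ?_
      have := mul_le_mul_of_nonneg_right h5 hnpos.le
      linarith
    exact le_of_mul_le_mul_left h6 (by positivity)
  -- the set X
  have hS0card : ((Bigᶜ).card : ℝ) = n - Big.card := by
    rw [Finset.card_compl, Nat.cast_sub (Finset.card_le_univ _)]
  have hS0ne : (Bigᶜ).Nonempty := by
    rw [← Finset.card_pos]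
    have : (0 : ℝ) < (Bigᶜ).card := by
      rw [hS0card]
      nlinarith
    exact_mod_cast this
  obtain ⟨X, hXS, hXne, hX⟩ := choose_X G Bigᶜ ((1 + θ) * M) hS0ne (by
    have h1 : (inc G Bigᶜ : ℝ) ≤ adj2 G Finset.univ := by exact_mod_cast inc_le G Bigᶜ
    refine h1.trans (hEr.trans ?_)
    rw [hS0card]
    have h2 : n ≤ (1 + θ) * (n - Big.card) := by
      have hB0 : (0 : ℝ) ≤ Big.card := Nat.cast_nonneg _
      nlinarith
    have h3 := mul_le_mul_of_nonneg_left h2 (show (0 : ℝ) ≤ 2 * M by positivity)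
    linarith)
  have hXdeg : ∀ v ∈ X, (dg G v : ℝ) < (2 + γ) * M := by
    intro v hv
    have h1 := hXS hv
    rw [Finset.mem_compl, hBig, Finset.mem_filter, not_and, not_le] at h1
    exact h1 (Finset.mem_univ v)
  obtain ⟨φ, hφ⟩ := out_col (by omega : 0 < c) G X (hIH X hXne)
  set G' := G.comap (Subtype.val : {x // x ∈ X} → V) with hG'
  set L := lft G X φ with hL
  have hdgs : ∀ v : {x // x ∈ X}, dg G' v + outd G X v = dg G v := by
    intro v
    rw [hG', dg_comap, ← dg_split]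
  have hdeg3 : ∀ v, dg G' v ≤ 3 * M := by
    intro v
    have h1 := hXdeg v v.2
    have h2 := hdgs v
    have h3 : (dg G' v : ℝ) ≤ ((3 * M : ℕ) : ℝ) := by
      have h4 : (dg G' v : ℝ) ≤ dg G v := by exact_mod_cast (by omega : dg G' v ≤ dg G v)
      push_cast
      nlinarith
    exact_mod_cast h3
  have hcomb := hComb κ θ hκ hκ1 hθ M hM1 c hc2M {x // x ∈ X} G' L (fun v => outd G X v)
    (by
      intro v
      have h1 : ((dg G' v : ℝ) + (outd G X v : ℝ)) = dg G v := by exact_mod_cast hdgs v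
      rw [h1]
      exact hc2θ.trans (by exact_mod_cast hdeg v))
    (by
      intro v
      have h1 : ((dg G' v : ℝ) + (outd G X v : ℝ)) = dg G v := by exact_mod_cast hdgs v
      rw [h1]
      have h2 := hXdeg v v.2
      nlinarith)
    (by
      intro v
      have h1 := lft_card G X φ v
      have h2 : (c : ℝ) ≤ ((lft G X φ v).card : ℝ) + (outd G X v : ℝ) := by exact_mod_cast h1
      exact hc2θ.trans h2)
    (by
      intro Y hY
      have h1 := hX (Y.map (Function.Embedding.subtype _)) (by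
        intro x hx
        rw [Finset.mem_map] at hx
        obtain ⟨y, -, rfl⟩ := hx
        exact y.2) (by simpa using hY)
      rw [hG', adj2_comap]
      rw [Finset.sum_map, Finset.card_map] at h1
      exact h1)
    (by
      intro Y hY
      have h0 : m i₀ ≤ (Y.map (Function.Embedding.subtype _)).card := by
        rw [Finset.card_map]
        refine le_trans ?_ hY
        rw [hM]
        exact Finset.single_le_sum (f := m) (fun i _ => Nat.zero_le _) (Finset.mem_univ i₀)
      have h1 := composed_edge' G H hH hG (Y.map (Function.Embedding.subtype _)) i₀ h0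
      rw [← adj2_comap, ← hM, Finset.card_map] at h1
      have h2 : (adj2 G' Y : ℝ) + (m i₀ : ℝ) ^ 2 ≤ 2 * M * Y.card := by exact_mod_cast h1
      have h3 : κ ^ 2 * (M : ℝ) ^ 2 ≤ (m i₀ : ℝ) ^ 2 := by
        rw [← mul_pow]
        exact pow_le_pow_left₀ (by positivity) hi₀ 2
      linarith)
  have h7 : (2 + γ) * (M : ℝ) - c < s * M := by
    have h8 : γ * θ * (M : ℝ) ≤ s / 2 * 1 * M := by
      apply mul_le_mul_of_nonneg_right _ (by linarith)
      exact mul_le_mul hγs (by linarith) hθ0.le (by linarith)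
    have h9 : γ * (M : ℝ) ≤ s / 2 * M := mul_le_mul_of_nonneg_right hγs (by linarith)
    have h10 : δ * (M : ℝ) ≤ γ / 4 * M := mul_le_mul_of_nonneg_right hδγ (by linarith)
    linarith
  -- local lemma
  obtain ⟨ω, hω⟩ := hLoc Q M c (s * M) hM3 hc1 {x // x ∈ X} G' L
    (fun v => ¬ ((dg G' v : ℝ) + θ * M ≤ ((L v).card : ℝ))) hdeg3
    (by
      intro v hv
      exact hConc {x // x ∈ X} G' L hdeg3 v ((hcomb v).resolve_left hv))
  obtain ⟨ψ, hψ1, hψ2⟩ := hFin {x // x ∈ X} G' c Q L ω (by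
    intro v
    by_cases hv : (dg G' v : ℝ) + θ * M ≤ ((L v).card : ℝ)
    · have h1 : (dg G' v : ℝ) < (((L v).card + nsav G' L ω v : ℕ) : ℝ) := by
        push_cast
        have : (0 : ℝ) ≤ nsav G' L ω v := Nat.cast_nonneg _
        linarith
      exact_mod_cast h1
    · have h1 := hω v hv
      have h2 := lft_card G X φ v
      have h3 : (c : ℝ) ≤ ((L v).card : ℝ) + (outd G X v : ℝ) := by exact_mod_cast h2
      have h4 : ((dg G' v : ℝ) + (outd G X v : ℝ)) = dg G v := by exact_mod_cast hdgs v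
      have h5 := hXdeg v v.2
      have h6 : (dg G' v : ℝ) < (((L v).card + nsav G' L ω v : ℕ) : ℝ) := by
        push_cast
        linarith
      exact_mod_cast h6)
  exact extend_col G X φ hφ ψ hψ1 hψ2

end

end Pool.Agent.Helper7.KS2
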